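import Mathlib
import Pool.Agent.MP_2278ed_co.Final

namespace Pool.Agent.Results.MP_2278ed_co.CanonicalAntichain

open Pool.Agent.MP_2278ed_co

/-- Every minimal hereditary class of unbounded clique-width contains an infinite coloured
antichain that is canonical in it. -/
theorem result : ∀ X : Set FG, MinimalUnbounded X → ∃ A : Set CG, Canonical A X :=
  fun _ hX => canonical_exists hX

end Pool.Agent.Results.MP_2278ed_co.CanonicalAntichain
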